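import Pool.Agent.H60MT.Bridge

set_option autoImplicit false

/-!
# The maximal tensor product of separable C*-algebras is a Borel construction

Formal elements of the algebraic tensor product are finite rational combinations of pairs of formal
*-polynomials. For a pair of codes the gauge of a formal element `x` is the infimum of the crude
costs `∑ |q| ‖p(γ)‖ ‖p'(δ)‖` of the formal elements `y` such that `y - x` is a sum of formal squares
and a skew element: a countable infimum of Borel functions. A measurable Hahn-Banach theorem gives
Borel functionals attaining the gauge at all formal squares `z* z`; a weighted sum of them extends to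
a positive functional on the algebraic tensor product whose GNS representation attains the maximal
norm, and Gram-Schmidt orthogonalisation moves the representation to `ℓ²` in a Borel way. A unitary
`ℓ² ≃ H` carries the construction to every separable infinite-dimensional Hilbert space.
-/

namespace Pool.Agent.Results.MP_829dc7_lc.MaxTensorBorel

open Pool.Agent.H60MT

/-- For every infinite-dimensional separable complex Hilbert space `H` there is a Borel map
`Φ : Γ(H) × Γ(H) → Γ(H)` such that `C*(Φ(γ, δ))` is the maximal tensor product of `C*(γ)` and
`C*(δ)` for all `γ, δ ∈ Γ(H)`. -/
theorem result (H : Type) [NormedAddCommGroup H] [InnerProductSpace ℂ H] [CompleteSpace H]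
    [TopologicalSpace.SeparableSpace H] (hinf : ¬ FiniteDimensional ℂ H) :
    ∃ Φ : Codes H × Codes H → Codes H, Measurable Φ ∧
      ∀ γ δ : Codes H, IsMaxTensor (CStarOf γ) (CStarOf δ) (CStarOf (Φ (γ, δ))) :=
  max_tensor_borel' H hinf

end Pool.Agent.Results.MP_829dc7_lc.MaxTensorBorel
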